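import Mathlib
import Pool.Agent.Helper104.HairyBall

/-!
A graded subalgebra of a Laurent polynomial ring over `ℝ` with a unimodular row of length three
which is not the first row of any invertible matrix.

Take `m = 5`, `A = ℝ[X₁, X₂, X₃, V, W, U]` with `V = X₄⁻¹`, `W = X₅⁻¹` and
`U = X₁⁻¹ (1 - X₂ V - X₃ W)`; its generators are homogeneous of degree `1` and `-1`, and
`X₁ U + X₂ V + X₃ W = 1`.  Evaluating at `(s₁, s₂, s₃, 1/s₂, 1/s₃)`, for a point `s` of the
two-sphere with nonzero coordinates, sends `V, W, U` to `s₂, s₃, s₁`, so that every element of `A`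
gives a function that extends continuously to the whole sphere.  If `(X₁, X₂, X₃)` were the
first row of an invertible matrix over `A`, then the second row would give a
continuous vector field on the sphere that is nowhere proportional to the position vector, against
the hairy ball theorem.
-/

namespace Pool.Agent.Results.MP_aa4be7_al.RowOfVariables

open Metric Filter Topology

/-- The Laurent polynomial ring in `m` variables over `R`: the monoid algebra of `ℤ^m`. -/
abbrev Laurent (R : Type) [CommRing R] (m : ℕ) : Type := AddMonoidAlgebra R (Fin m → ℤ)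

/-- The total degree of a Laurent monomial. -/
def totalDegree (m : ℕ) : (Fin m → ℤ) →+ ℤ where
  toFun a := ∑ i, a i
  map_zero' := by simp
  map_add' a b := by simp [Finset.sum_add_distrib]

/-- The component `L_k` of total degree `k`. -/
noncomputable def degreePart (R : Type) [CommRing R] (m : ℕ) (k : ℤ) :
    Submodule R (Laurent R m) :=
  AddMonoidAlgebra.gradeBy R (totalDegree m) k

/-- `A` is a graded subalgebra of the Laurent polynomial ring: it is the sum of its intersections
with the components `L_k`. -/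
def IsGraded {R : Type} [CommRing R] {m : ℕ} (A : Subalgebra R (Laurent R m)) : Prop :=
  Subalgebra.toSubmodule A = ⨆ k : ℤ, Subalgebra.toSubmodule A ⊓ degreePart R m k

/-- Unimodular rows of length `n` over `A`. -/
def Um (n : ℕ) (A : Type) [CommRing A] : Set (Fin n → A) :=
  {a | ∃ b : Fin n → A, ∑ i, a i * b i = 1}

/-- The row `e_1 = (1, 0, …, 0)`. -/
def e1 (n : ℕ) (A : Type) [CommRing A] : Fin n → A := fun i => if (i : ℕ) = 0 then 1 else 0

/-- The rows `e_1 g` with `g` in `GL_n(A)`. They contain the set `e_1 E_n(A)` of the question, since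
`E_n(A)` is a subgroup of `GL_n(A)`. -/
def rowsGL (n : ℕ) (A : Type) [CommRing A] : Set (Fin n → A) :=
  {a | ∃ g : GL (Fin n) A, a = Matrix.vecMul (e1 n A) (g : Matrix (Fin n) (Fin n) A)}

section Sphere

abbrev E3 := EuclideanSpace ℝ (Fin 3)

abbrev S2 := sphere (0 : E3) 1

/-- points of the sphere without zero coordinate -/
def D : Set S2 := {s | ∀ i, (s : E3) i ≠ 0}

lemma dense_D : Dense D := by
  intro s
  rw [Metric.mem_closure_iff]
  intro ε hε
  set o : E3 := !₂[1, 1, 1] with ho
  have ho' : ∀ i, o i = 1 := by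
    intro i
    fin_cases i <;> simp [ho]
  let f : ℝ → E3 := fun t => (‖(s : E3) + t • o‖)⁻¹ • ((s : E3) + t • o)
  have hs1 : ‖(s : E3)‖ = 1 := mem_sphere_zero_iff_norm.1 s.2
  have hg : Continuous fun t : ℝ => (s : E3) + t • o := by fun_prop
  have hf : ContinuousAt f 0 := by
    refine ContinuousAt.smul (ContinuousAt.inv₀ hg.norm.continuousAt ?_) hg.continuousAt
    simp [hs1]
  have hf0 : f 0 = s := by simp [f, hs1]
  have h1 : ∀ᶠ t in 𝓝[>] (0 : ℝ), dist (f t) s < ε := by
    have : Tendsto f (𝓝[>] 0) (𝓝 (s : E3)) := by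
      rw [← hf0]
      exact hf.tendsto.mono_left nhdsWithin_le_nhds
    exact this.eventually (Metric.ball_mem_nhds _ hε)
  have h2 : ∀ᶠ t in 𝓝[>] (0 : ℝ), ∀ i : Fin 3, (s : E3) i + t ≠ 0 := by
    rw [eventually_all]
    intro i
    by_cases hi : (s : E3) i = 0
    · filter_upwards [self_mem_nhdsWithin] with t ht
      rw [hi, zero_add]
      exact (Set.mem_Ioi.1 ht).ne'
    · have hc : ContinuousAt (fun t : ℝ => (s : E3) i + t) 0 := by fun_prop
      have : ∀ᶠ t in 𝓝 (0 : ℝ), (s : E3) i + t ≠ 0 := hc.eventually_ne (by simpa using hi)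
      exact this.filter_mono nhdsWithin_le_nhds
  have hne : (𝓝[>] (0 : ℝ)).NeBot := inferInstance
  obtain ⟨t, ht1, ht2⟩ := (h1.and h2).exists
  have hcoord : ∀ i, ((s : E3) + t • o) i = (s : E3) i + t := by
    intro i
    simp [ho']
  have hn0 : (s : E3) + t • o ≠ 0 := by
    intro h
    have := congrArg (fun v : E3 => v 0) h
    simp only [hcoord] at this
    exact ht2 0 (by simpa using this)
  have hn : ‖(s : E3) + t • o‖ ≠ 0 := norm_ne_zero_iff.2 hn0
  refine ⟨⟨f t, ?_⟩, ?_, ?_⟩
  · rw [mem_sphere_zero_iff_norm]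
    simp only [f]
    rw [norm_smul, norm_inv, norm_norm, inv_mul_cancel₀ hn]
  · intro i
    change (f t) i ≠ 0
    simp only [f, PiLp.smul_apply, smul_eq_mul]
    rw [hcoord]
    exact mul_ne_zero (inv_ne_zero hn) (ht2 i)
  · rw [dist_comm]
    exact ht1

end Sphere

section Algebra

/-- the Laurent polynomial ring in five variables -/
abbrev L5 : Type := Laurent ℝ 5

/-- Laurent monomials -/
noncomputable def mon (a : Fin 5 → ℤ) : L5 := AddMonoidAlgebra.single a 1

lemma mon_mul (a b : Fin 5 → ℤ) : mon a * mon b = mon (a + b) := by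
  simp [mon, AddMonoidAlgebra.single_mul_single]

lemma mon_zero : mon 0 = 1 := rfl

noncomputable def x : L5 := mon (Pi.single 0 1)
noncomputable def y : L5 := mon (Pi.single 1 1)
noncomputable def z : L5 := mon (Pi.single 2 1)
noncomputable def v : L5 := mon (Pi.single 3 (-1))
noncomputable def w : L5 := mon (Pi.single 4 (-1))
noncomputable def u : L5 := mon (Pi.single 0 (-1)) * (1 - y * v - z * w)

lemma relation : x * u + y * v + z * w = 1 := by
  have : x * mon (Pi.single 0 (-1)) = 1 := by
    rw [x, mon_mul, ← Pi.single_add]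
    simp [mon_zero]
  rw [u, ← mul_assoc, this]
  ring

/-- the algebra `A` -/
noncomputable def A : Subalgebra ℝ L5 := Algebra.adjoin ℝ {x, y, z, v, w, u}

lemma mon_mem (a : Fin 5 → ℤ) : mon a ∈ degreePart ℝ 5 (∑ i, a i) :=
  AddMonoidAlgebra.single_mem_gradeBy (totalDegree 5) a 1

instance : SetLike.GradedMonoid (degreePart ℝ 5) :=
  AddMonoidAlgebra.gradeBy.gradedMonoid (totalDegree 5)

lemma homogeneous_gen : ∀ g ∈ ({x, y, z, v, w, u} : Set L5), ∃ k, g ∈ degreePart ℝ 5 k := by
  intro g hg
  rcases hg with rfl | rfl | rfl | rfl | rfl | rfl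
  · exact ⟨_, mon_mem _⟩
  · exact ⟨_, mon_mem _⟩
  · exact ⟨_, mon_mem _⟩
  · exact ⟨_, mon_mem _⟩
  · exact ⟨_, mon_mem _⟩
  · refine ⟨-1, ?_⟩
    have h1 : mon (Pi.single 0 (-1)) ∈ degreePart ℝ 5 (-1) := by
      have := mon_mem (Pi.single 0 (-1))
      rwa [Finset.sum_pi_single', if_pos (Finset.mem_univ _)] at this
    have h2 : y * v ∈ degreePart ℝ 5 0 := by
      rw [y, v, mon_mul]
      have := mon_mem (Pi.single 1 1 + Pi.single 3 (-1))
      simp only [Pi.add_apply, Finset.sum_add_distrib, Finset.sum_pi_single', Finset.mem_univ,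
        if_true] at this
      simpa using this
    have h3 : z * w ∈ degreePart ℝ 5 0 := by
      rw [z, w, mon_mul]
      have := mon_mem (Pi.single 2 1 + Pi.single 4 (-1))
      simp only [Pi.add_apply, Finset.sum_add_distrib, Finset.sum_pi_single', Finset.mem_univ,
        if_true] at this
      simpa using this
    have h4 : (1 : L5) ∈ degreePart ℝ 5 0 := SetLike.GradedOne.one_mem
    have := SetLike.GradedMul.mul_mem h1 (sub_mem (sub_mem h4 h2) h3)
    rwa [add_zero] at this

lemma isGraded_A : IsGraded A := by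
  refine le_antisymm ?_ (iSup_le fun k => inf_le_left)
  rw [A, Algebra.adjoin_eq_span, Submodule.span_le]
  intro g hg
  suffices h : ∃ k, g ∈ degreePart ℝ 5 k by
    obtain ⟨k, hk⟩ := h
    exact Submodule.mem_iSup_of_mem k ⟨Submodule.subset_span hg, hk⟩
  induction hg using Submonoid.closure_induction with
  | mem g hg => exact homogeneous_gen g hg
  | one => exact ⟨0, SetLike.GradedOne.one_mem⟩
  | mul a b _ _ ha hb =>
    obtain ⟨i, hi⟩ := ha
    obtain ⟨j, hj⟩ := hb
    exact ⟨i + j, SetLike.GradedMul.mul_mem hi hj⟩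

/-- the evaluation point attached to a point of the sphere -/
noncomputable def cc (s : S2) (hs : s ∈ D) : Fin 5 → ℝˣ :=
  ![Units.mk0 _ (hs 0), Units.mk0 _ (hs 1), Units.mk0 _ (hs 2), (Units.mk0 _ (hs 1))⁻¹,
    (Units.mk0 _ (hs 2))⁻¹]

/-- evaluation of Laurent polynomials -/
noncomputable def ev (c : Fin 5 → ℝˣ) : L5 →ₐ[ℝ] ℝ :=
  AddMonoidAlgebra.lift ℝ ℝ (Fin 5 → ℤ)
    { toFun := fun a => ((∏ i, (c i) ^ (a.toAdd i) : ℝˣ) : ℝ)
      map_one' := by simp
      map_mul' := fun a b => by
        rw [← Units.val_mul, ← Finset.prod_mul_distrib]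
        simp [zpow_add] }

lemma ev_mon (c : Fin 5 → ℝˣ) (i : Fin 5) (n : ℤ) : ev c (mon (Pi.single i n)) = ((c i) ^ n : ℝˣ) := by
  rw [ev, mon, AddMonoidAlgebra.lift_single, one_smul]
  change ((∏ j, (c j) ^ ((Pi.single i n : Fin 5 → ℤ) j) : ℝˣ) : ℝ) = _
  congr 1
  rw [Finset.prod_eq_single i]
  · simp
  · intro j _ hj
    rw [Pi.single_eq_of_ne hj, zpow_zero]
  · intro h
    exact absurd (Finset.mem_univ _) h

lemma sum_sq (s : S2) : (s : E3) 0 ^ 2 + (s : E3) 1 ^ 2 + (s : E3) 2 ^ 2 = 1 := by
  have h : ‖(s : E3)‖ = 1 := mem_sphere_zero_iff_norm.1 s.2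
  have h2 := EuclideanSpace.norm_sq_eq (s : E3)
  rw [h, Fin.sum_univ_three] at h2
  simp only [Real.norm_eq_abs, sq_abs] at h2
  linarith

/-- every element of `A` gives a continuous function on the sphere -/
lemma exists_ext (a : L5) (ha : a ∈ A) :
    ∃ F : S2 → ℝ, Continuous F ∧ ∀ (s : S2) (hs : s ∈ D), ev (cc s hs) a = F s := by
  have hcoord : ∀ i : Fin 3, Continuous fun s : S2 => (s : E3) i := fun i =>
    (PiLp.continuous_apply 2 _ i).comp continuous_subtype_val
  induction ha using Algebra.adjoin_induction with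
  | mem g hg =>
    rcases hg with rfl | rfl | rfl | rfl | rfl | rfl
    · exact ⟨fun s => (s : E3) 0, hcoord 0, fun s hs => by simp [x, ev_mon, cc]⟩
    · exact ⟨fun s => (s : E3) 1, hcoord 1, fun s hs => by simp [y, ev_mon, cc]⟩
    · exact ⟨fun s => (s : E3) 2, hcoord 2, fun s hs => by simp [z, ev_mon, cc]⟩
    · exact ⟨fun s => (s : E3) 1, hcoord 1, fun s hs => by simp [v, ev_mon, cc]⟩
    · exact ⟨fun s => (s : E3) 2, hcoord 2, fun s hs => by simp [w, ev_mon, cc]⟩
    · refine ⟨fun s => (s : E3) 0, hcoord 0, fun s hs => ?_⟩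
      have h0 : (s : E3) 0 ≠ 0 := hs 0
      have e1 : ev (cc s hs) y = (s : E3) 1 := by simp [y, ev_mon, cc]
      have e2 : ev (cc s hs) z = (s : E3) 2 := by simp [z, ev_mon, cc]
      have e3 : ev (cc s hs) v = (s : E3) 1 := by simp [v, ev_mon, cc]
      have e4 : ev (cc s hs) w = (s : E3) 2 := by simp [w, ev_mon, cc]
      have e5 : ev (cc s hs) (mon (Pi.single 0 (-1))) = ((s : E3) 0)⁻¹ := by simp [ev_mon, cc]
      rw [u, map_mul, map_sub, map_sub, map_mul, map_mul, map_one, e1, e2, e3, e4, e5]
      have := sum_sq s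
      field_simp
      linarith
  | algebraMap r => exact ⟨fun _ => r, continuous_const, fun s hs => (ev (cc s hs)).commutes r⟩
  | add a b _ _ ha hb =>
    obtain ⟨F, hF, hF2⟩ := ha
    obtain ⟨G, hG, hG2⟩ := hb
    exact ⟨fun s => F s + G s, hF.add hG, fun s hs => by rw [map_add, hF2, hG2]⟩
  | mul a b _ _ ha hb =>
    obtain ⟨F, hF, hF2⟩ := ha
    obtain ⟨G, hG, hG2⟩ := hb
    exact ⟨fun s => F s * G s, hF.mul hG, fun s hs => by rw [map_mul, hF2, hG2]⟩

lemma x_mem : x ∈ A := Algebra.subset_adjoin (by simp)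
lemma y_mem : y ∈ A := Algebra.subset_adjoin (by simp)
lemma z_mem : z ∈ A := Algebra.subset_adjoin (by simp)
lemma u_mem : u ∈ A := Algebra.subset_adjoin (by simp)
lemma v_mem : v ∈ A := Algebra.subset_adjoin (by simp)
lemma w_mem : w ∈ A := Algebra.subset_adjoin (by simp)

/-- the row of variables -/
noncomputable def row : Fin 3 → A := ![⟨x, x_mem⟩, ⟨y, y_mem⟩, ⟨z, z_mem⟩]

lemma row_mem : row ∈ Um 3 A := by
  refine ⟨![⟨u, u_mem⟩, ⟨v, v_mem⟩, ⟨w, w_mem⟩], ?_⟩
  rw [Fin.sum_univ_three]
  exact Subtype.ext relation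

end Algebra

/-- the row of variables is not the first row of an invertible matrix -/
lemma not_completable (g g' : Matrix (Fin 3) (Fin 3) A) (hgg : g * g' = 1)
    (hrow : ∀ j, g 0 j = row j) : False := by
  choose F hF hF2 using fun i j => exists_ext (g i j : L5) (g i j).2
  choose G hG hG2 using fun i j => exists_ext (g' i j : L5) (g' i j).2
  -- the product of the evaluated matrices
  have hprod : ∀ (i k : Fin 3) (s : S2), ∑ j, F i j s * G j k s = if i = k then 1 else 0 := by
    intro i k s
    have hc : Continuous fun s => ∑ j, F i j s * G j k s :=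
      continuous_finsetSum _ fun j _ => (hF i j).mul (hG j k)
    have := hc.ext_on dense_D (continuous_const (y := if i = k then (1 : ℝ) else 0)) (by
      intro s hs
      have h1 : (((g * g') i k : A) : L5) = if i = k then 1 else 0 := by
        rw [hgg, Matrix.one_apply]
        split_ifs <;> rfl
      have h2 : (((g * g') i k : A) : L5) = ∑ j, (g i j : L5) * (g' j k : L5) := by
        rw [Matrix.mul_apply]
        push_cast
        rfl
      have h3 := congrArg (ev (cc s hs)) (h2.symm.trans h1)
      rw [map_sum] at h3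
      simp only [map_mul, hF2, hG2] at h3
      simp only [h3]
      split_ifs <;> simp)
    exact congrFun this s
  have hrow' : ∀ (j : Fin 3) (s : S2), F 0 j s = (s : E3) j := by
    intro j s
    have hcoord : Continuous fun s : S2 => (s : E3) j :=
      (PiLp.continuous_apply 2 _ j).comp continuous_subtype_val
    have := (hF 0 j).ext_on dense_D hcoord (by
      intro s hs
      change F 0 j s = (s : E3) j
      rw [← hF2 0 j s hs, hrow]
      fin_cases j
      · simp [row, x, ev_mon, cc]
      · simp [row, y, ev_mon, cc]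
      · simp [row, z, ev_mon, cc])
    exact congrFun this s
  -- the second row as a vector field
  let r : S2 → E3 := fun s => !₂[F 1 0 s, F 1 1 s, F 1 2 s]
  have hr : ∀ s i, r s i = F 1 i s := by
    intro s i
    fin_cases i <;> rfl
  have hrc : Continuous r := by
    apply (PiLp.continuous_toLp 2 _).comp
    apply continuous_pi
    intro i
    fin_cases i
    · exact hF 1 0
    · exact hF 1 1
    · exact hF 1 2
  let V : S2 → E3 := fun s => r s - (inner ℝ (s : E3) (r s)) • (s : E3)
  have hVc : Continuous V := by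
    have h1 : Continuous fun s : S2 => (inner ℝ (s : E3) (r s) : ℝ) :=
      continuous_subtype_val.inner hrc
    have h2 : Continuous fun s : S2 => (inner ℝ (s : E3) (r s) : ℝ) • (s : E3) :=
      h1.smul continuous_subtype_val
    exact hrc.sub h2
  refine Pool.Agent.Helper775.Hairy.hairy V hVc ?_ ?_
  · intro s hs
    have hrs : r s = (inner ℝ (s : E3) (r s)) • (s : E3) := sub_eq_zero.1 hs
    set c : ℝ := inner ℝ (s : E3) (r s)
    have hj : ∀ j, F 1 j s = c * F 0 j s := by
      intro j
      rw [hrow', ← hr, hrs]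
      simp
    have h1 := hprod 1 1 s
    have h0 := hprod 0 1 s
    have : ∑ j, F 1 j s * G j 1 s = c * ∑ j, F 0 j s * G j 1 s := by
      rw [Finset.mul_sum]
      exact Finset.sum_congr rfl fun j _ => by rw [hj]; ring
    rw [h1, h0] at this
    simp at this
  · intro s
    have hs1 : ‖(s : E3)‖ = 1 := mem_sphere_zero_iff_norm.1 s.2
    simp only [V]
    rw [inner_sub_right, inner_smul_right, real_inner_self_eq_norm_sq, hs1]
    ring

/-- The negated form of the question, in a stronger form: a Noetherian ring `R` of finite Krull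
dimension `d`, a graded subalgebra `A` of a Laurent polynomial ring in `m ≥ 1` variables over `R` and
an integer `n ≥ max (d + 2) 3` such that some unimodular row of length `n` over `A` is not of the form
`e_1 g` with `g` in `GL_n(A)` (in particular with `g` in `E_n(A)`). -/
theorem result : ∃ (R : Type) (_ : CommRing R) (d m n : ℕ) (A : Subalgebra R (Laurent R m)),
    IsNoetherianRing R ∧ ringKrullDim R = d ∧ 1 ≤ m ∧ IsGraded A ∧ max (d + 2) 3 ≤ n ∧
      ¬ Um n A ⊆ rowsGL n A := by
  have key : row ∉ rowsGL 3 A := by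
    rintro ⟨g, hg⟩
    refine not_completable (g : Matrix (Fin 3) (Fin 3) A)
      ((g⁻¹ : GL (Fin 3) A) : Matrix (Fin 3) (Fin 3) A) ?_ ?_
    · rw [← Units.val_mul, mul_inv_cancel, Units.val_one]
    · intro j
      rw [hg, Matrix.vecMul, dotProduct, Fin.sum_univ_three]
      simp [e1]
  exact ⟨ℝ, inferInstance, 0, 5, 3, A, inferInstance, by
    rw [ringKrullDim_eq_zero_of_field]; rfl, by norm_num, isGraded_A, by norm_num,
    fun h => key (h row_mem)⟩

end Pool.Agent.Results.MP_aa4be7_al.RowOfVariables
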